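import Pool.Agent.W4.CF.Stms

/-!
CF-SZ: integers `δ` of bounded size with `L(τ δ^k) = 0` (Schwartz–Zippel).
-/

set_option autoImplicit false

namespace Pool.Agent.W347.CF

open NumberField Finset Pool.Agent.W4.CF

/-- coordinates of an integer are bounded by the conjugates -/
theorem coord (K : Type) [Field K] [NumberField K] :
    ∃ (d : ℕ) (_ : d = Module.finrank ℚ K) (b : Module.Basis (Fin d) ℤ (𝓞 K)) (c : ℝ), 0 ≤ c ∧
      ∀ (α : 𝓞 K) (B : ℝ), (∀ σ : K →+* ℂ, ‖σ (α : K)‖ ≤ B) → ∀ i, |((b.repr α i : ℤ) : ℝ)| ≤ c * B := by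
  classical
  have e : Module.Free.ChooseBasisIndex ℤ (𝓞 K) ≃ Fin (Module.finrank ℚ K) :=
    Fintype.equivOfCardEq (by
      rw [← Module.finrank_eq_card_chooseBasisIndex, RingOfIntegers.rank, Fintype.card_fin])
  have h : ∃ c : ℝ, ∀ (α : 𝓞 K) (i : K →+* ℂ),
      ‖(((integralBasis K).reindex (equivReindex K).symm).repr α i : ℂ)‖ ≤
      c * house (algebraMap (𝓞 K) K α) := ⟨_, fun α i => house.basis_repr_norm_le_const_mul_house K α i⟩
  obtain ⟨c, hc⟩ := h
  refine ⟨_, rfl, (RingOfIntegers.basis K).reindex e, max c 0, le_max_right _ _, ?_⟩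
  intro α B hB i
  have hne : Nonempty (K →+* ℂ) := inferInstance
  have hB0 : 0 ≤ B := (norm_nonneg _).trans (hB (Classical.arbitrary _))
  have h1 := hc α ((equivReindex K).symm (e.symm i))
  simp only [Module.Basis.repr_reindex, Finsupp.mapDomain_equiv_apply, Equiv.symm_symm,
    Equiv.apply_symm_apply, integralBasis_repr_apply, eq_intCast, Rat.cast_intCast,
    Complex.norm_intCast] at h1
  have h2 : house (algebraMap (𝓞 K) K α) ≤ B := by
    unfold house
    rw [pi_norm_le_iff_of_nonneg hB0]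
    intro σ
    exact hB σ
  have h3 : |(((RingOfIntegers.basis K).repr α (e.symm i) : ℤ) : ℝ)| ≤ max c 0 * B := by
    calc _ ≤ c * house (algebraMap (𝓞 K) K α) := h1
      _ ≤ max c 0 * house (algebraMap (𝓞 K) K α) :=
        mul_le_mul_of_nonneg_right (le_max_left _ _) (house_nonneg _)
      _ ≤ max c 0 * B := mul_le_mul_of_nonneg_left h2 (le_max_right _ _)
  simpa [Module.Basis.repr_reindex, Finsupp.mapDomain_equiv_apply] using h3

/-- a `ℚ`-linear functional which kills all `τ α^k` is zero -/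
theorem lin_zero {K : Type} [Field K] [NumberField K] {k : ℕ} (hk : 1 ≤ k) (L : K →ₗ[ℚ] ℚ) {τ : K}
    (hτ : τ ≠ 0) (h : ∀ α : K, L (τ * α ^ k) = 0) : L = 0 := by
  have key : ∀ β : K, L (τ * β) = 0 := by
    intro β
    let q : Polynomial ℚ := ∑ j ∈ range (k + 1), Polynomial.C ((k.choose j : ℚ) * L (τ * β ^ j)) *
      Polynomial.X ^ j
    have hq : q = 0 := by
      apply Polynomial.funext
      intro t
      rw [Polynomial.eval_zero, Polynomial.eval_finset_sum]
      have h1 := h ((t : ℚ) • β + 1)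
      rw [add_pow] at h1
      rw [Finset.mul_sum, map_sum] at h1
      rw [← h1]
      apply Finset.sum_congr rfl
      intro j _
      rw [Polynomial.eval_mul, Polynomial.eval_C, Polynomial.eval_pow, Polynomial.eval_X]
      have e1 : τ * ((t • β) ^ j * 1 ^ (k - j) * ((k.choose j : ℕ) : K)) =
          ((k.choose j : ℚ) * t ^ j) • (τ * β ^ j) := by
        rw [smul_pow, Algebra.smul_def, Algebra.smul_def, one_pow]
        push_cast
        ring
      rw [e1, map_smul, smul_eq_mul]
      ring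
    have h2 : q.coeff 1 = 0 := by rw [hq, Polynomial.coeff_zero]
    have h3 : q.coeff 1 = (k : ℚ) * L (τ * β) := by
      have : q.coeff 1 = ∑ j ∈ range (k + 1), if 1 = j then ((k.choose j : ℚ) * L (τ * β ^ j)) else 0 := by
        show (∑ j ∈ range (k + 1), Polynomial.C ((k.choose j : ℚ) * L (τ * β ^ j)) *
          Polynomial.X ^ j : Polynomial ℚ).coeff 1 = _
        rw [Polynomial.finset_sum_coeff]
        apply Finset.sum_congr rfl
        intro j _
        rw [Polynomial.coeff_C_mul, Polynomial.coeff_X_pow]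
        split_ifs <;> simp
      rw [this, Finset.sum_ite_eq, if_pos (by rw [mem_range]; omega)]
      simp
    rw [h3] at h2
    rcases mul_eq_zero.1 h2 with h4 | h4
    · exfalso
      have : (k : ℚ) ≠ 0 := by
        have : k ≠ 0 := by omega
        exact_mod_cast this
      exact this h4
    · exact h4
  apply LinearMap.ext
  intro γ
  have := key (τ⁻¹ * γ)
  rwa [← mul_assoc, mul_inv_cancel₀ hτ, one_mul] at this

theorem t_SZ : S_SZ := by
  classical
  intro K _ _ k hk
  obtain ⟨d, hd, b, c, hc, hb⟩ := coord K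
  have hd1 : 1 ≤ d := by rw [hd]; exact Module.finrank_pos
  rw [← hd]
  refine ⟨k * (2 * c + 1) ^ (d - 1), by
    have : (0 : ℝ) < k := by
      have : 0 < k := by omega
      exact_mod_cast this
    positivity, ?_⟩
  intro L τ hL hτ B hB s hs
  -- the polynomial
  let P : MvPolynomial (Fin d) ℚ := ∑ f : Fin k → Fin d,
    MvPolynomial.C (L (τ * ∏ j, ((b (f j) : 𝓞 K) : K))) * ∏ j, MvPolynomial.X (f j)
  have heval : ∀ x : Fin d → ℚ, MvPolynomial.eval x P = L (τ * (∑ i, x i • ((b i : 𝓞 K) : K)) ^ k) := by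
    intro x
    show MvPolynomial.eval x (∑ f : Fin k → Fin d,
      MvPolynomial.C (L (τ * ∏ j, ((b (f j) : 𝓞 K) : K))) * ∏ j, MvPolynomial.X (f j)) = _
    rw [map_sum, Fintype.sum_pow, Finset.mul_sum, map_sum]
    apply Finset.sum_congr rfl
    intro f _
    rw [map_mul, MvPolynomial.eval_C, map_prod]
    simp only [MvPolynomial.eval_X]
    have e1 : τ * ∏ j, (x (f j) • ((b (f j) : 𝓞 K) : K)) =
        (∏ j, x (f j)) • (τ * ∏ j, ((b (f j) : 𝓞 K) : K)) := by
      simp only [Algebra.smul_def]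
      rw [Finset.prod_mul_distrib, map_prod]
      ring
    rw [e1, map_smul, smul_eq_mul, mul_comm]
  have hP : P ≠ 0 := by
    intro h0
    apply hL
    apply lin_zero hk L hτ
    intro α
    -- `α` is a combination of the basis
    obtain ⟨m, hm, β, hβ⟩ : ∃ m : ℤ, m ≠ 0 ∧ ∃ β : 𝓞 K, (m : K) * α = β := by
      obtain ⟨⟨β, ⟨m, hm⟩⟩, h⟩ := IsLocalization.surj (Algebra.algebraMapSubmonoid (𝓞 K) (nonZeroDivisors ℤ)) α
      obtain ⟨n, hn, rfl⟩ := hm
      refine ⟨n, nonZeroDivisors.ne_zero hn, β, ?_⟩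
      rw [mul_comm]
      simpa using h
    have hmK : (m : K) ≠ 0 := by exact_mod_cast hm
    have hβ2 : ((β : 𝓞 K) : K) = ∑ i, ((b.repr β i : ℤ) : ℚ) • ((b i : 𝓞 K) : K) := by
      conv_lhs => rw [← b.sum_repr β]
      rw [RingOfIntegers.coe_eq_algebraMap, map_sum]
      apply Finset.sum_congr rfl
      intro i _
      rw [zsmul_eq_mul, map_mul, map_intCast, Algebra.smul_def]
      simp
    have hα : α = ∑ i, (((b.repr β i : ℤ) : ℚ) / m) • ((b i : 𝓞 K) : K) := by
      have h1 : (m : K) * α = (m : K) * ∑ i, (((b.repr β i : ℤ) : ℚ) / m) • ((b i : 𝓞 K) : K) := by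
        rw [hβ, hβ2, Finset.mul_sum]
        apply Finset.sum_congr rfl
        intro i _
        rw [Algebra.smul_def, Algebra.smul_def]
        rw [map_div₀]
        have : (algebraMap ℚ K) (m : ℚ) = (m : K) := by simp
        rw [this]
        field_simp
      exact mul_left_cancel₀ hmK h1
    rw [hα, ← heval, h0, map_zero]
  -- total degree
  have hdeg : P.totalDegree ≤ k := by
    apply MvPolynomial.totalDegree_finsetSum_le
    intro f _
    refine (MvPolynomial.totalDegree_mul _ _).trans ?_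
    rw [MvPolynomial.totalDegree_C, zero_add]
    refine (MvPolynomial.totalDegree_finset_prod _ _).trans ?_
    simp [MvPolynomial.totalDegree_X]
  set N : ℕ := ⌊c * B⌋₊ with hN
  set S : Finset ℚ := (Icc (-(N : ℤ)) N).image (fun z : ℤ => (z : ℚ)) with hS
  have hScard : S.card = 2 * N + 1 := by
    rw [hS, Finset.card_image_of_injective _ (fun a b h => by exact_mod_cast h), Int.card_Icc]
    omega
  have hsz := MvPolynomial.schwartz_zippel_totalDegree hP S
  set Z := (Fintype.piFinset fun _ : Fin d => S).filter (fun f => MvPolynomial.eval f P = 0) with hZ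
  have hZc : Z.card ≤ k * (2 * N + 1) ^ (d - 1) := by
    have hpos : (0 : ℚ≥0) < (2 * N + 1 : ℕ) := by exact_mod_cast Nat.succ_pos _
    rw [hScard] at hsz
    rw [div_le_div_iff₀ (pow_pos hpos _) hpos] at hsz
    have h1 : Z.card * (2 * N + 1) ≤ P.totalDegree * (2 * N + 1) ^ d := by exact_mod_cast hsz
    have h2 : (2 * N + 1) ^ d = (2 * N + 1) ^ (d - 1) * (2 * N + 1) := by
      rw [← pow_succ]; congr 1; omega
    rw [h2, ← mul_assoc] at h1
    have h3 := Nat.le_of_mul_le_mul_right h1 (Nat.succ_pos _)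
    exact h3.trans (Nat.mul_le_mul_right _ hdeg)
  -- the injection
  have hsZ : s.card ≤ Z.card := by
    apply Finset.card_le_card_of_injOn (fun δ => fun i => ((b.repr δ i : ℤ) : ℚ))
    · intro δ hδ
      obtain ⟨h1, h2⟩ := hs δ hδ
      rw [hZ, Finset.mem_coe, mem_filter, Fintype.mem_piFinset]
      refine ⟨fun i => ?_, ?_⟩
      · rw [hS, mem_image]
        refine ⟨b.repr δ i, ?_, rfl⟩
        have h3 := hb δ B h2 i
        have h4 : (b.repr δ i).natAbs ≤ N := by
          rw [hN]
          apply Nat.le_floor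
          rw [Nat.cast_natAbs, Int.cast_abs]
          exact h3
        rw [mem_Icc]
        omega
      · rw [heval]
        have : ((δ : 𝓞 K) : K) = ∑ i, ((b.repr δ i : ℤ) : ℚ) • ((b i : 𝓞 K) : K) := by
          conv_lhs => rw [← b.sum_repr δ]
          rw [RingOfIntegers.coe_eq_algebraMap, map_sum]
          apply Finset.sum_congr rfl
          intro i _
          rw [zsmul_eq_mul, map_mul, map_intCast, Algebra.smul_def]
          simp
        rw [← this]
        exact h1
    · intro δ _ δ' _ h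
      apply b.repr.injective
      ext i
      have := congrFun h i
      simpa using this
  have hB0 : 0 < B := by linarith
  have h5 : ((2 * N + 1 : ℕ) : ℝ) ≤ (2 * c + 1) * B := by
    have : (N : ℝ) ≤ c * B := Nat.floor_le (by positivity)
    push_cast
    nlinarith
  calc (s.card : ℝ) ≤ ((k * (2 * N + 1) ^ (d - 1) : ℕ) : ℝ) := by exact_mod_cast hsZ.trans hZc
    _ = k * ((2 * N + 1 : ℕ) : ℝ) ^ (d - 1) := by push_cast; ring
    _ ≤ k * ((2 * c + 1) * B) ^ (d - 1) := by gcongr
    _ = k * (2 * c + 1) ^ (d - 1) * B ^ (d - 1) := by rw [mul_pow]; ring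

end Pool.Agent.W347.CF
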